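import Mathlib
import Pool.Agent.X270.BurnFacts

/-!
# A finitely generated group with finite centralizers which is not an FNI-group (helper270)

The free group `G` of rank four and of large prime exponent `p`: by the theory of Novikov-Adian and
Olshanskii (formalised in the library, `Pool.Agent.TH54.BU`) the centralizer of every nontrivial
element is cyclic of order `p`. Let `x₀, x₁, x₂, x₃` be the free generators, `K = ⟨x₁, x₂, x₃⟩` and
`H` the kernel of the homomorphism `K → B(2, p)`, `x₁ ↦ 1`. Then `K` normalises `H`, and `K / H` is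
infinite, but `x₀ x₁ x₀⁻¹` is not in `K` (apply the retraction of `G` onto `K`), so `H` is not normal.
-/

set_option autoImplicit false

namespace Pool.Agent.Results.MP_5bd9ee_al.NotFNI

open Pool.Agent.TH54.BU Pool.Agent.X270.BurnF

/-- the cofinite topology -/
@[reducible] def cofTop (G : Type) : TopologicalSpace G := TopologicalSpace.generateFrom {U | Uᶜ.Finite}

/-- the topology `𝔠'_G`: a subbase for the closed sets consists of the finite sets and the cosets
`h C_G(g)` -/
@[reducible] def centTop' (G : Type) [Group G] : TopologicalSpace G :=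
  TopologicalSpace.generateFrom
    ({U | Uᶜ.Finite} ∪ {U | ∃ h g : G, Uᶜ = {x | ∃ c, c * g = g * c ∧ x = h * c}})

/-- `G` is `𝔠'`-cofinite -/
def Ccen (G : Type) [Group G] : Prop := centTop' G = cofTop G

/-- every subgroup has finite index in its normalizer or is normal -/
def FNI (G : Type) [Group G] : Prop :=
  ∀ H : Subgroup G, H.relIndex (Subgroup.normalizer (H : Set G)) ≠ 0 ∨ H.Normal

theorem ccen_of {G : Type} [Group G]
    (h : ∀ g : G, {c : G | c * g = g * c}.Finite ∨ ∀ c : G, c * g = g * c) : Ccen G := by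
  refine le_antisymm ?_ ?_
  · exact TopologicalSpace.generateFrom_anti (Set.subset_union_left)
  · refine le_generateFrom ?_
    rintro U (hU | ⟨h', g, hU⟩)
    · exact TopologicalSpace.isOpen_generateFrom_of_mem hU
    · rcases h g with h1 | h1
      · refine TopologicalSpace.isOpen_generateFrom_of_mem ?_
        show Uᶜ.Finite
        rw [hU]
        have : {x | ∃ c, c * g = g * c ∧ x = h' * c} = (fun c => h' * c) '' {c : G | c * g = g * c} := by
          ext x
          constructor
          · rintro ⟨c, h2, h3⟩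
            exact ⟨c, h2, h3.symm⟩
          · rintro ⟨c, h2, h3⟩
            exact ⟨c, h2, h3.symm⟩
        rw [this]
        exact h1.image _
      · have : U = ∅ := by
          rw [← Set.compl_univ_iff, Set.eq_univ_iff_forall]
          intro x
          rw [hU]
          exact ⟨h'⁻¹ * x, h1 _, by group⟩
        rw [this]
        exact @isOpen_empty G (cofTop G)

theorem result : ∃ p0 : ℕ, ∀ p : ℕ, p.Prime → p0 ≤ p →
    ∃ (G : Type) (_ : Group G), Group.FG G ∧ (∀ g : G, g ^ p = 1) ∧
      (∀ g : G, g ≠ 1 → {c : G | c * g = g * c} = (Subgroup.zpowers g : Set G)) ∧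
      (∀ g : G, g ≠ 1 → {c : G | c * g = g * c}.Finite) ∧ Ccen G ∧
      (∃ H : Subgroup G, ¬ H.Normal ∧
        H.relIndex (Subgroup.normalizer (H : Set G)) = 0) ∧ ¬ FNI G := by
  obtain ⟨p0, h0⟩ := burnside
  refine ⟨p0, fun p hp hle => ?_⟩
  have hB := h0 p hp hle
  have hcomm := comm_zpowers (I := Fin 4) hp hB
  have hcen : ∀ g : Bf (Fin 4) p, g ≠ 1 →
      {c : Bf (Fin 4) p | c * g = g * c} = (Subgroup.zpowers g : Set (Bf (Fin 4) p)) := by
    intro g hg
    ext c
    constructor
    · intro hc
      exact hcomm g c hg hc.symm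
    · intro hc
      obtain ⟨k, rfl⟩ := Subgroup.mem_zpowers_iff.1 hc
      exact (Commute.zpow_left (Commute.refl g) k).eq
  have hfin : ∀ g : Bf (Fin 4) p, g ≠ 1 → {c : Bf (Fin 4) p | c * g = g * c}.Finite := by
    intro g hg
    rw [hcen g hg]
    exact finite_zp hp g
  have hH : ∃ H : Subgroup (Bf (Fin 4) p), ¬ H.Normal ∧
      H.relIndex (Subgroup.normalizer (H : Set (Bf (Fin 4) p))) = 0 := by
    let x : Fin 4 → Bf (Fin 4) p := gen p
    let K : Subgroup (Bf (Fin 4) p) := Subgroup.closure {x 1, x 2, x 3}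
    let Ψ : Bf (Fin 4) p →* Bf (Fin 2) p := ext ![1, 1, gen p 0, gen p 1] pow_Q
    have hΨ1 : Ψ (x 1) = 1 := ext_gen _ _ 1
    have hΨ2 : Ψ (x 2) = gen p 0 := ext_gen _ _ 2
    have hΨ3 : Ψ (x 3) = gen p 1 := ext_gen _ _ 3
    let ρ : Bf (Fin 4) p →* Bf (Fin 4) p := ext ![1, x 1, x 2, x 3] pow_Q
    have hρ0 : ρ (x 0) = 1 := ext_gen _ _ 0
    have hρ1 : ρ (x 1) = x 1 := ext_gen _ _ 1
    have hρ2 : ρ (x 2) = x 2 := ext_gen _ _ 2
    have hρ3 : ρ (x 3) = x 3 := ext_gen _ _ 3
    have hρK : ∀ k ∈ K, ρ k = k := by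
      intro k hk
      have h1 : Set.EqOn ρ (MonoidHom.id (Bf (Fin 4) p)) (K : Set (Bf (Fin 4) p)) := by
        apply MonoidHom.eqOn_closure
        rintro y (rfl | rfl | rfl)
        · exact hρ1
        · exact hρ2
        · exact hρ3
      exact h1 hk
    have hx1K : x 1 ∈ K := Subgroup.subset_closure (by simp)
    refine ⟨K ⊓ Ψ.ker, ?_, ?_⟩
    · intro hN
      have h1 : x 1 ∈ K ⊓ Ψ.ker := ⟨hx1K, hΨ1⟩
      have h2 := (hN.conj_mem _ h1 (x 0)).1
      have h3 := hρK _ h2
      rw [map_mul, map_mul, map_inv, hρ0, hρ1, one_mul, inv_one, mul_one] at h3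
      exact gen_ne_comm hB (show (0 : Fin 4) ≠ 1 by decide) (by
        show x 0 * x 1 = x 1 * x 0
        nth_rewrite 2 [h3]
        group)
    · have hle1 : K ≤ Subgroup.normalizer ((K ⊓ Ψ.ker : Subgroup _) : Set (Bf (Fin 4) p)) := by
        intro k hk
        rw [Subgroup.mem_normalizer_iff]
        intro h
        constructor
        · rintro ⟨h1, h2⟩
          refine ⟨K.mul_mem (K.mul_mem hk h1) (K.inv_mem hk), ?_⟩
          have h2' : Ψ h = 1 := h2
          show Ψ (k * h * k⁻¹) = 1
          rw [map_mul, map_mul, h2', map_inv, mul_one, mul_inv_cancel]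
        · rintro ⟨h1, h2⟩
          have e : h = k⁻¹ * (k * h * k⁻¹) * k := by group
          refine ⟨?_, ?_⟩
          · rw [e]
            exact K.mul_mem (K.mul_mem (K.inv_mem hk) h1) hk
          · have h2' : Ψ (k * h * k⁻¹) = 1 := h2
            show Ψ h = 1
            rw [e, map_mul, map_mul, h2', map_inv, mul_one, inv_mul_cancel]
      rw [← Subgroup.relIndex_mul_relIndex (K ⊓ Ψ.ker) K _ inf_le_left hle1]
      have h1 : (K ⊓ Ψ.ker).relIndex K = 0 := by
        rw [Subgroup.inf_relIndex_left, Subgroup.relIndex_ker]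
        have h2 : K.map Ψ = ⊤ := by
          rw [eq_top_iff, ← closure_gen (p := p) (I := Fin 2), Subgroup.closure_le]
          rintro _ ⟨i, rfl⟩
          fin_cases i
          · exact ⟨x 2, Subgroup.subset_closure (by simp), hΨ2⟩
          · exact ⟨x 3, Subgroup.subset_closure (by simp), hΨ3⟩
        have h3 := Burn.infinite hp hB
        have h4 : Infinite (K.map Ψ) := by
          rw [h2]
          exact Infinite.of_injective (fun g : Bf (Fin 2) p => (⟨g, trivial⟩ : (⊤ : Subgroup _)))
            (fun a b hab => congrArg Subtype.val hab)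
        exact Nat.card_eq_zero_of_infinite
      rw [h1, zero_mul]
  refine ⟨Bf (Fin 4) p, inferInstance, ?_, pow_Q, hcen, hfin, ?_, hH, ?_⟩
  · classical
    refine ⟨⟨Finset.univ.image (gen p), ?_⟩⟩
    rw [Finset.coe_image, Finset.coe_univ, Set.image_univ]
    exact closure_gen
  · apply ccen_of
    intro g
    by_cases hg : g = 1
    · right
      intro c
      rw [hg, one_mul, mul_one]
    · left
      exact hfin g hg
  · intro hF
    obtain ⟨H, h1, h2⟩ := hH
    rcases hF H with h3 | h3
    · exact h3 h2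
    · exact h1 h3

end Pool.Agent.Results.MP_5bd9ee_al.NotFNI
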